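import Pool.Agent.R551.CG.Defs

/-!
# A language in `EC(SLT_2)` that is not in `EC(ORD)`

The definitions are in `Pool/Agent/R551/CG/Defs.lean`.

The example is `U* ∪ c S c` over the alphabet `U ∪ {c}`, `U = {X, Y, Z, p, q, r}`, where `S` is the
set of the words over `U` with none of the factors `Y p`, `X q`, `Z r`.

If this language were generated with ordered selection languages, then long words `c w c` would
arise from factors of `w` by a single step. Call a word over `U` a loop if it ends with `X` and may
follow the letter `X`. For finitely many ordered automata there is a loop `e` such that `e` and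
`e t e` act in the same way for every loop `t` (take a loop of minimal rank; an injective monotone
map of a finite chain to itself is the identity). Let `σ` be a state of the form `s e`. One of the
three states `σ`, `σ Y`, `σ Z` lies between the two others, and applying `p X e`, `q X e` or
`r X e` shows that a forbidden factor can be inserted after `e` without changing the state.
-/

set_option autoImplicit false

namespace Pool.Agent.Results.MP_4db40a_lc.TestableNotOrdered

open Pool.Agent.R551.CG

/-! ### The language is generated with strictly locally 2-testable selection -/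

theorem chain_iff {w : List ℕ} {R : ℕ → ℕ → Prop} (hU : Over U6 w) (h2 : 2 ≤ w.length) :
    w.IsChain R ↔ w.take 2 ∈ {v : List ℕ | ∃ a b, v = [a, b] ∧ a ∈ U6 ∧ b ∈ U6 ∧ R a b} ∧
      w.drop (w.length - 2) ∈ {v : List ℕ | ∃ a b, v = [a, b] ∧ a ∈ U6 ∧ b ∈ U6 ∧ R a b} ∧
      ∀ j, 1 ≤ j → j + 2 + 1 ≤ w.length →
        (w.drop j).take 2 ∈ {v : List ℕ | ∃ a b, v = [a, b] ∧ a ∈ U6 ∧ b ∈ U6 ∧ R a b} := by
  have key : ∀ j, (hj : j + 1 < w.length) → (w.drop j).take 2 = [w[j], w[j + 1]] := by
    intro j hj
    rw [List.drop_eq_getElem_cons (by omega), List.drop_eq_getElem_cons (by omega)]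
    rfl
  have hm : ∀ j, (hj : j < w.length) → w[j] ∈ U6 := fun j hj => hU _ (List.getElem_mem hj)
  have h0 : w.take 2 = [w[0], w[1]] := by
    have h := key 0 (by omega)
    simpa using h
  have h1 : w.drop (w.length - 2) = [w[w.length - 2], w[w.length - 2 + 1]] := by
    have h := key (w.length - 2) (by omega)
    rwa [List.take_of_length_le] at h
    simp only [List.length_drop]
    omega
  rw [List.isChain_iff_getElem, h0, h1]
  constructor
  · intro h
    refine ⟨⟨_, _, rfl, hm _ _, hm _ _, h 0 (by omega)⟩,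
      ⟨_, _, rfl, hm _ _, hm _ _, h _ (by omega)⟩, fun j _ hj => ?_⟩
    rw [key j (by omega)]
    exact ⟨_, _, rfl, hm _ _, hm _ _, h j (by omega)⟩
  · rintro ⟨⟨a, b, he, _, _, hab⟩, ⟨a', b', he', _, _, hab'⟩, h⟩ i hi
    simp only [List.cons.injEq, and_true] at he he'
    rcases Nat.eq_zero_or_pos i with rfl | hi0
    · rw [he.1, he.2]
      exact hab
    · rcases Nat.lt_or_ge (i + 2) w.length with hlt | hge
      · obtain ⟨a'', b'', he'', _, _, hab''⟩ := h i hi0 (by omega)
        rw [key i hi] at he''
        simp only [List.cons.injEq, and_true] at he''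
        rw [he''.1, he''.2]
        exact hab''
      · have hi' : i = w.length - 2 := by omega
        subst hi'
        rw [he'.1, he'.2]
        exact hab'

theorem slt_chain (R : ℕ → ℕ → Prop) :
    StrictlyLocallyTestable 2 U6 {w | Over U6 w ∧ w.IsChain R} := by
  refine ⟨fun w hw => hw.1, {v | ∃ a b, v = [a, b] ∧ a ∈ U6 ∧ b ∈ U6 ∧ R a b},
    {v | ∃ a b, v = [a, b] ∧ a ∈ U6 ∧ b ∈ U6 ∧ R a b},
    {v | ∃ a b, v = [a, b] ∧ a ∈ U6 ∧ b ∈ U6 ∧ R a b}, ?_, ?_⟩
  · rintro w ((h | h) | h) <;>
    · obtain ⟨a, b, rfl, ha, hb, _⟩ := h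
      refine ⟨rfl, ?_⟩
      intro x hx
      simp only [List.mem_cons, List.not_mem_nil, or_false] at hx
      rcases hx with rfl | rfl <;> assumption
  · intro w hw h2
    rw [← chain_iff hw h2]
    exact ⟨fun h => h.2, fun h => ⟨hw, h⟩⟩

theorem slt_univ : StrictlyLocallyTestable 2 U6 {w | Over U6 w} := by
  have h := slt_chain fun _ _ => True
  have h2 : {w : List ℕ | Over U6 w ∧ w.IsChain fun _ _ => True} = {w | Over U6 w} := by
    ext w
    simp only [Set.mem_ofPred_eq, and_iff_left_iff_imp]
    intro _
    rw [List.isChain_iff_getElem]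
    intros
    trivial
  rwa [h2] at h

/-- the grammar of the example -/
def G₀ : Grammar where
  V := Finset.range 7
  P := {({w | Over U6 w}, {c | ∃ a < 6, c = ([a], [])}), (S₀, {([6], [6])})}
  A := {[]}
  finite_P := Set.toFinite _
  finite_A := Set.toFinite _
  finite_C := by
    rintro p (rfl | rfl)
    · refine Set.Finite.subset ((Finset.range 6).image fun a => (([a], []) : List ℕ × List ℕ)
        ).finite_toSet ?_
      rintro c ⟨a, ha, rfl⟩
      simp only [Finset.coe_image, Finset.coe_range, Set.mem_image, Set.mem_Iio]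
      exact ⟨a, ha, rfl⟩
    · exact Set.finite_singleton _
  over_A := by
    rintro w rfl a ha
    simp at ha
  over_C := by
    rintro p (rfl | rfl) c hc
    · obtain ⟨a, ha, rfl⟩ := hc
      constructor
      · intro b hb
        simp only [List.mem_singleton] at hb
        subst hb
        simp only [Finset.coe_range, Set.mem_Iio]
        omega
      · intro b hb
        simp at hb
    · rcases hc with rfl
      constructor <;>
      · intro b hb
        simp only [List.mem_singleton] at hb
        subst hb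
        simp

theorem lang_G₀ : G₀.lang = L₀ := by
  ext y
  constructor
  · rintro ⟨a, ha, h⟩
    have ha' : a = [] := ha
    subst ha'
    induction h with
    | refl => exact Or.inl fun b hb => by simp at hb
    | tail _ hs _ =>
      obtain ⟨p, hp, hx, c, hc, rfl⟩ := hs
      rcases hp with rfl | rfl
      · obtain ⟨a, ha, rfl⟩ := hc
        refine Or.inl ?_
        intro b hb
        simp only [List.cons_append, List.nil_append, List.append_nil, List.mem_cons] at hb
        rcases hb with rfl | hb
        · exact ha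
        · exact hx b hb
      · rcases hc with rfl
        exact Or.inr ⟨_, hx, rfl⟩
  · have h1 : ∀ w, Over U6 w → w ∈ G₀.lang := by
      intro w
      induction w with
      | nil => exact fun _ => ⟨[], rfl, .refl⟩
      | cons a w ih =>
        intro hw
        obtain ⟨x, hx, h⟩ := ih fun b hb => hw b (by simp [hb])
        exact ⟨x, hx, h.tail ⟨_, Or.inl rfl, fun b hb => hw b (by simp [hb]), ([a], []),
          ⟨a, hw a (by simp), rfl⟩, by simp⟩⟩
    rintro (h | ⟨w, hw, rfl⟩)
    · exact h1 y h
    · obtain ⟨x, hx, h⟩ := h1 w hw.1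
      exact ⟨x, hx, h.tail ⟨_, Or.inr rfl, hw, ([6], [6]), rfl, by simp⟩⟩

theorem L₀_mem : L₀ ∈ EC (StrictlyLocallyTestable 2) := by
  refine ⟨G₀, ?_, lang_G₀⟩
  have hU : U6 ⊆ (G₀.V : Set ℕ) := by
    intro a ha
    have : a < 6 := ha
    simp only [G₀, Finset.coe_range, Set.mem_Iio]
    omega
  rintro p (rfl | rfl)
  · exact ⟨U6, hU, slt_univ⟩
  · exact ⟨U6, hU, slt_chain Ok⟩

/-! ### The language is not generated with ordered selection -/

/-- the last step of a derivation of `c w c` -/
theorem last_step (G : Grammar) (hG : G.lang = L₀) {a : List ℕ} (ha : a ∈ G.A) {y : List ℕ}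
    (h : Relation.ReflTransGen G.Step a y) :
    ∀ w, Over U6 w → y = 6 :: w ++ [6] →
      y = a ∨ ∃ p ∈ G.P, ∃ x ∈ p.1, Over U6 x ∧ ∃ c ∈ p.2, y = c.1 ++ x ++ c.2 := by
  induction h with
  | refl => exact fun _ _ _ => Or.inl rfl
  | @tail x y h hs ih =>
    intro w hw hy
    have hx : x ∈ L₀ := by
      rw [← hG]
      exact ⟨a, ha, h⟩
    obtain ⟨p, hp, hxp, c, hc, hyc⟩ := hs
    rcases hx with hx | ⟨w', hw', hx⟩
    · exact Or.inr ⟨p, hp, x, hxp, hx, c, hc, hyc⟩
    · -- then the context is empty
      have h6 : ∀ v, Over U6 v → v.count 6 = 0 := by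
        intro v hv
        rw [List.count_eq_zero]
        intro h
        have h := hv _ h
        have : (6 : ℕ) < 6 := h
        omega
      have e : 6 :: w ++ [6] = c.1 ++ (6 :: w' ++ [6]) ++ c.2 := by rw [← hy, hyc, hx]
      have hcount := congrArg (List.count 6) e
      simp only [List.count_append, List.count_cons, List.count_nil, h6 w hw,
        h6 w' hw'.1] at hcount
      have hc1 : c.1 = [] := by
        rcases hc1 : c.1 with _ | ⟨b, l⟩
        · rfl
        · exfalso
          rw [hc1] at e hcount
          simp only [List.cons_append, List.cons.injEq] at e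
          have hb : b = 6 := e.1.symm
          subst hb
          simp only [List.count_cons] at hcount
          simp at hcount
          omega
      have hc2 : c.2 = [] := by
        rcases List.eq_nil_or_concat c.2 with h | ⟨l, b, h⟩
        · exact h
        · exfalso
          rw [List.concat_eq_append] at h
          rw [h] at e hcount
          rw [← List.append_assoc] at e
          have e2 := List.append_inj' e rfl
          have hb : b = 6 := by
            have := e2.2
            simp only [List.cons.injEq, and_true] at this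
            exact this.symm
          subst hb
          simp only [List.count_append, List.count_cons, List.count_nil] at hcount
          simp at hcount
          omega
      have hxy : x = y := by
        rw [hyc, hc1, hc2]
        simp
      subst hxy
      exact ih w hw hy

/-- a word that works for all selection languages at once -/
theorem exists_universal (P : Set (Set (List ℕ) × Set (List ℕ × List ℕ))) (hP : P.Finite) :
    ∃ e ∈ T₀, ∀ p ∈ P, ∀ U : Set ℕ, U6 ⊆ U → Ordered U p.1 →
      ∃ (n : ℕ) (δ : Fin n → ℕ → Fin n) (z₀ : Fin n) (F : Set (Fin n)),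
        (∀ a ∈ U6, ∀ z z' : Fin n, z ≤ z' → δ z a ≤ δ z' a) ∧
        (∀ w, Over U6 w → (w ∈ p.1 ↔ w.foldl δ z₀ ∈ F)) ∧
        ∀ t ∈ T₀, ∀ s : Fin n, act δ (e ++ t ++ e) s = act δ e s := by
  induction P, hP using Set.Finite.induction_on with
  | empty => exact ⟨[], mem_T₀_of (by decide) (by decide) (by decide), fun p hp => hp.elim⟩
  | @insert p P _ _ ih =>
    obtain ⟨e, he, hP'⟩ := ih
    -- a word for `p`
    have h1 : ∃ f ∈ T₀, ∀ U : Set ℕ, U6 ⊆ U → Ordered U p.1 →
        ∃ (n : ℕ) (δ : Fin n → ℕ → Fin n) (z₀ : Fin n) (F : Set (Fin n)),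
          (∀ a ∈ U6, ∀ z z' : Fin n, z ≤ z' → δ z a ≤ δ z' a) ∧
          (∀ w, Over U6 w → (w ∈ p.1 ↔ w.foldl δ z₀ ∈ F)) ∧
          ∀ t ∈ T₀, ∀ s : Fin n, act δ (f ++ t ++ f) s = act δ f s := by
      by_cases h : ∃ U : Set ℕ, U6 ⊆ U ∧ Ordered U p.1
      · obtain ⟨U, hU, n, δ, z₀, F, hδ, hS⟩ := h
        have hδ' : ∀ a ∈ U6, ∀ z z' : Fin n, z ≤ z' → δ z a ≤ δ z' a :=
          fun a ha => hδ a (hU ha)
        obtain ⟨f, hf, hf2⟩ := exists_min δ hδ' T₀ ⟨_, t1⟩ T₀_mul fun v hv => hv.1
        refine ⟨f, hf, fun U' _ _ => ⟨n, δ, z₀, F, hδ', ?_, hf2⟩⟩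
        intro w hw
        rw [hS]
        exact ⟨fun h => h.2, fun h => ⟨fun a ha => hU (hw a ha), h⟩⟩
      · exact ⟨_, t1, fun U hU hO => (h ⟨U, hU, hO⟩).elim⟩
    obtain ⟨f, hf, hf2⟩ := h1
    have comb : ∀ {n : ℕ} (δ : Fin n → ℕ → Fin n) (g h k : List ℕ), g ∈ T₀ → k ∈ T₀ →
        (∀ t ∈ T₀, ∀ s : Fin n, act δ (h ++ t ++ h) s = act δ h s) →
        ∀ t ∈ T₀, ∀ s : Fin n,
          act δ ((g ++ h ++ k) ++ t ++ (g ++ h ++ k)) s = act δ (g ++ h ++ k) s := by
      intro n δ g h k hg hk H t ht s
      have e1 : (g ++ h ++ k) ++ t ++ (g ++ h ++ k) = g ++ ((h ++ (k ++ t ++ g) ++ h) ++ k) := by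
        simp [List.append_assoc]
      have e2 : g ++ h ++ k = g ++ (h ++ k) := by simp
      rw [e1, e2, act_append δ g, act_append δ (h ++ (k ++ t ++ g) ++ h) k,
        H _ (T₀_mul _ (T₀_mul _ hk _ ht) _ hg), act_append δ g, act_append δ h k]
    have hnil : ([] : List ℕ) ∈ T₀ := mem_T₀_of (by decide) (by decide) (by decide)
    refine ⟨e ++ f, T₀_mul _ he _ hf, ?_⟩
    intro p' hp' U hU hO
    rcases hp' with rfl | hp'
    · obtain ⟨n, δ, z₀, F, h1, h2, h3⟩ := hf2 U hU hO
      refine ⟨n, δ, z₀, F, h1, h2, ?_⟩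
      have h4 := comb δ e f [] he hnil h3
      simpa using h4
    · obtain ⟨n, δ, z₀, F, h1, h2, h3⟩ := hP' p' hp' U hU hO
      refine ⟨n, δ, z₀, F, h1, h2, ?_⟩
      have h4 := comb δ [] e f hnil hf h3
      simpa using h4

/-- a power of a loop -/
theorem pow_mem {e : List ℕ} (he : e ∈ T₀) (m : ℕ) : (List.replicate m e).flatten ∈ T₀ := by
  induction m with
  | zero =>
    show ([] : List ℕ) ∈ T₀
    exact mem_T₀_of (by decide) (by decide) (by decide)
  | succ m ih =>
    rw [List.replicate_succ, List.flatten_cons]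
    exact T₀_mul _ he _ ih

theorem le_length_pow {e : List ℕ} (he : e ≠ []) (m : ℕ) :
    m ≤ (List.replicate m e).flatten.length := by
  have : 1 ≤ e.length := List.length_pos_iff.2 he
  simp only [List.length_flatten, List.map_replicate, List.sum_replicate, smul_eq_mul]
  nlinarith

theorem not_mem : L₀ ∉ EC Ordered := by
  rintro ⟨G, hsel, hG⟩
  obtain ⟨e₁, he₁, huniv⟩ := exists_universal G.P G.finite_P
  -- add all letters
  set e := e₁ ++ [1, 4, 2, 3, 5, 0] with he
  have heT : e ∈ T₀ := T₀_mul _ he₁ _ t7
  have hene : e ≠ [] := by simp [he]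
  -- a bound for the lengths of the axioms and of the contexts
  obtain ⟨M, hMA, hMC⟩ : ∃ M : ℕ, (∀ a ∈ G.A, a.length ≤ M) ∧
      ∀ p ∈ G.P, ∀ c ∈ p.2, c.1.length ≤ M ∧ c.2.length ≤ M := by
    obtain ⟨M₁, h1⟩ := (G.finite_A.image List.length).bddAbove
    have hfin : (⋃ p ∈ G.P, p.2).Finite := G.finite_P.biUnion fun p hp => G.finite_C p hp
    obtain ⟨M₂, h2⟩ := (hfin.image fun c => c.1.length + c.2.length).bddAbove
    refine ⟨max M₁ M₂, fun a ha => ?_, fun p hp c hc => ?_⟩
    · exact (h1 (Set.mem_image_of_mem _ ha)).trans (le_max_left _ _)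
    · have h3 := h2 (Set.mem_image_of_mem (fun c : List ℕ × List ℕ => c.1.length + c.2.length)
        (Set.mem_biUnion hp hc))
      have h4 : c.1.length + c.2.length ≤ M₂ := h3
      have h5 := le_max_right M₁ M₂
      omega
  set B := (List.replicate M e).flatten with hB
  have hBT : B ∈ T₀ := pow_mem heT M
  have hBlen : M ≤ B.length := le_length_pow hene M
  have hwT : B ++ e ++ B ∈ T₀ := T₀_mul _ (T₀_mul _ hBT _ heT) _ hBT
  have hwS : B ++ e ++ B ∈ S₀ := by
    refine ⟨hwT.1, ?_⟩
    have h := hwT.2.1
    rw [List.isChain_cons] at h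
    exact h.2
  have hyL : 6 :: (B ++ e ++ B) ++ [6] ∈ G.lang := by
    rw [hG]
    exact Or.inr ⟨_, hwS, rfl⟩
  obtain ⟨a, ha, hder⟩ := hyL
  rcases last_step G hG ha hder _ hwT.1 rfl with h | ⟨p, hp, x, hxp, hxU, c, hc, hy⟩
  · have h1 := hMA a ha
    rw [← h] at h1
    simp only [List.cons_append, List.length_cons, List.length_append, List.length_nil] at h1
    omega
  · obtain ⟨hc1, hc2⟩ := hMC p hp c hc
    -- cut off the contexts
    obtain ⟨α, β, hx, h1, h2⟩ : ∃ α β, x = α ++ e ++ β ∧ c.1 ++ α = 6 :: B ∧
        β ++ c.2 = B ++ [6] := by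
      have hy1 : (6 :: B) ++ (e ++ (B ++ [6])) = c.1 ++ (x ++ c.2) := by
        rw [← List.append_assoc c.1, ← hy]
        simp [List.append_assoc]
      rcases List.append_eq_append_iff.1 hy1 with ⟨as, h1, h2⟩ | ⟨bs, h1, h2⟩
      · -- `c.1 = (6 :: B) ++ as` is impossible by length
        have h3 := congrArg List.length h1
        simp only [List.length_cons, List.length_append] at h3
        omega
      · -- `6 :: B = c.1 ++ bs`, `x ++ c.2 = bs ++ (e ++ (B ++ [6]))`
        have h2' : x ++ c.2 = (bs ++ e) ++ (B ++ [6]) := by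
          rw [h2]
          simp [List.append_assoc]
        rcases List.append_eq_append_iff.1 h2' with ⟨as', h3, h4⟩ | ⟨bs', h3, h4⟩
        · -- `bs ++ e = x ++ as'`, `c.2 = as' ++ (B ++ [6])`
          have h5 := congrArg List.length h4
          simp only [List.length_append, List.length_cons, List.length_nil] at h5
          omega
        · exact ⟨bs, bs', h3, h1.symm, h4.symm⟩
    obtain ⟨U, hUV, hO⟩ := hsel p hp
    have hxUU : Over U x := by
      obtain ⟨n, δ, z₀, F, _, hS⟩ := hO
      rw [hS] at hxp
      exact hxp.1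
    have hU6 : U6 ⊆ U := by
      intro b hb
      have hb' : b < 6 := hb
      refine hxUU b ?_
      rw [hx, he]
      have : b ∈ ([1, 4, 2, 3, 5, 0] : List ℕ) := by
        interval_cases b <;> decide
      simp only [List.mem_append]
      exact Or.inl (Or.inr (Or.inr this))
    obtain ⟨n, δ, z₀, F, hδ, hacc, hmin⟩ := huniv p hp U hU6 hO
    -- the property for `e`
    have hmin' : ∀ t ∈ T₀, ∀ s : Fin n, act δ (e ++ t ++ e) s = act δ e s := by
      intro t ht s
      have e1 : e ++ t ++ e = (e₁ ++ ([1, 4, 2, 3, 5, 0] ++ t) ++ e₁) ++ [1, 4, 2, 3, 5, 0] := by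
        simp [he, List.append_assoc]
      rw [e1, act_append, hmin _ (T₀_mul _ t7 _ ht), he, act_append]
    obtain ⟨t, ht, hact⟩ := exists_bad δ hδ e heT.1 hmin' (act δ α z₀)
    -- the new word
    have htU : Over U6 t := by
      intro b hb
      rcases ht with rfl | rfl | rfl <;>
      · simp only [List.mem_cons, List.not_mem_nil, or_false] at hb
        rcases hb with rfl | rfl | rfl <;> (show _ < 6; decide)
    have hαU : Over U6 α := fun b hb => hxU b (by rw [hx]; simp [hb])
    have hβU : Over U6 β := fun b hb => hxU b (by rw [hx]; simp [hb])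
    have hx'U : Over U6 (α ++ (e ++ t ++ e) ++ β) := by
      intro b hb
      simp only [List.mem_append] at hb
      rcases hb with (h | (h | h) | h) | h
      · exact hαU b h
      · exact heT.1 b h
      · exact htU b h
      · exact heT.1 b h
      · exact hβU b h
    have hx'p : α ++ (e ++ t ++ e) ++ β ∈ p.1 := by
      rw [hacc _ hx'U]
      have h3 := (hacc _ hxU).1 hxp
      have h4 : (α ++ (e ++ t ++ e) ++ β).foldl δ z₀ = x.foldl δ z₀ := by
        rw [hx]
        show act δ (α ++ (e ++ t ++ e) ++ β) z₀ = act δ (α ++ e ++ β) z₀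
        rw [act_append δ (α ++ (e ++ t ++ e)) β, act_append δ α (e ++ t ++ e), hact,
          act_append δ (α ++ e) β, act_append δ α e]
      rw [h4]
      exact h3
    have hx'L : α ++ (e ++ t ++ e) ++ β ∈ G.lang := by
      rw [hG]
      exact Or.inl hx'U
    obtain ⟨a', ha', hder'⟩ := hx'L
    have hnew : c.1 ++ (α ++ (e ++ t ++ e) ++ β) ++ c.2 ∈ G.lang :=
      ⟨a', ha', hder'.tail ⟨p, hp, hx'p, c, hc, rfl⟩⟩
    have hform : c.1 ++ (α ++ (e ++ t ++ e) ++ β) ++ c.2 = 6 :: (B ++ (e ++ t ++ e) ++ B) ++ [6] := by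
      calc c.1 ++ (α ++ (e ++ t ++ e) ++ β) ++ c.2
          = (c.1 ++ α) ++ (e ++ t ++ e) ++ (β ++ c.2) := by simp [List.append_assoc]
        _ = 6 :: (B ++ (e ++ t ++ e) ++ B) ++ [6] := by
            rw [h1, h2]
            simp [List.append_assoc]
    rw [hform, hG] at hnew
    rcases hnew with h | ⟨w, hw, h⟩
    · have h6 : (6 : ℕ) < 6 := h 6 (by simp)
      omega
    · have hw' : w = B ++ (e ++ t ++ e) ++ B := by
        have h3 := List.append_inj' h rfl
        have h4 := h3.1
        simp only [List.cons.injEq, true_and] at h4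
        exact h4.symm
      -- the forbidden factor
      have hch := hw.2
      rw [hw'] at hch
      have hch2 : (e ++ t).IsChain Ok := by
        have e1 : B ++ (e ++ t ++ e) ++ B = B ++ ((e ++ t) ++ (e ++ B)) := by
          simp [List.append_assoc]
        rw [e1] at hch
        exact (List.IsChain.right_of_append hch).left_of_append
      have hch3 : (0 :: t).IsChain Ok := by
        have e1 : e ++ t = (e₁ ++ [1, 4, 2, 3, 5]) ++ (0 :: t) := by
          simp [he, List.append_assoc]
        rw [e1] at hch2
        exact List.IsChain.right_of_append hch2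
      rcases ht with rfl | rfl | rfl
      · exact absurd hch3 (by decide)
      · exact absurd hch3 (by decide)
      · exact absurd hch3 (by decide)

/-- There is a language that is generated by an external contextual grammar with strictly locally
2-testable selection languages, but by none with ordered selection languages. -/
theorem result : (EC (StrictlyLocallyTestable 2) \ EC Ordered).Nonempty :=
  ⟨L₀, L₀_mem, not_mem⟩

end Pool.Agent.Results.MP_4db40a_lc.TestableNotOrdered
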